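import Pool.Agent.H98.RFC.Final

/-!
# A finite volume criterion for exponential decay, finite range couplings, all temperatures

For every ferromagnetic coupling of range at most `R`, every `T ≥ 0` and every disorder strength:
`m` decays exponentially if and only if `4 R (4 r + 3 R + 1) m(r) < 1` for some `r`.
-/

set_option autoImplicit false

open Pool.Agent.H98.RFC Filter Topology

namespace Pool.Agent.Results.MP_057a7e_pr.FiniteVolumeCriterion

/-- Exponential decay gives the criterion. -/
theorem fwd (R : ℕ) (J : Site → ℝ) (T ε : ℝ) (h : ExpDecay R J T ε) :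
    ∃ r : ℕ, (4 * R * (4 * r + 3 * R + 1) : ℝ) * mag R J T ε r < 1 := by
  obtain ⟨C, hC, c, hc, hb⟩ := h
  -- the upper bound tends to zero
  have h1 : Tendsto (fun r : ℕ => (4 * R * (4 * r + 3 * R + 1) : ℝ) * (C * Real.exp (-(c * r))))
      atTop (𝓝 0) := by
    have e0 : Tendsto (fun r : ℕ => Real.exp (-(c * (r : ℝ)))) atTop (𝓝 0) := by
      have : Tendsto (fun r : ℕ => c * (r : ℝ)) atTop atTop :=
        Tendsto.const_mul_atTop hc tendsto_natCast_atTop_atTop
      exact Real.tendsto_exp_neg_atTop_nhds_zero.comp this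
    have e1 : Tendsto (fun r : ℕ => (r : ℝ) * Real.exp (-(c * (r : ℝ)))) atTop (𝓝 0) := by
      have h2 : Tendsto (fun x : ℝ => x ^ 1 * Real.exp (-x)) atTop (𝓝 0) :=
        Real.tendsto_pow_mul_exp_neg_atTop_nhds_zero 1
      have h3 : Tendsto (fun r : ℕ => c * (r : ℝ)) atTop atTop :=
        Tendsto.const_mul_atTop hc tendsto_natCast_atTop_atTop
      have h4 := (h2.comp h3).const_mul (1 / c)
      simp only [mul_zero] at h4
      refine h4.congr ?_
      intro r
      simp only [Function.comp, pow_one]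
      field_simp
    have e2 := (e1.const_mul (16 * R * C : ℝ)).add (e0.const_mul (4 * R * (3 * R + 1) * C : ℝ))
    simp only [mul_zero, add_zero] at e2
    refine e2.congr ?_
    intro r
    ring
  have h2 := (h1.eventually (gt_mem_nhds (zero_lt_one))).and (eventually_ge_atTop 1)
  obtain ⟨r, hr, hr1⟩ := h2.exists
  refine ⟨r, lt_of_le_of_lt ?_ hr⟩
  exact mul_le_mul_of_nonneg_left (hb r hr1) (by positivity)

/-- **Finite volume criterion.** -/
theorem result (R : ℕ) (J : Site → ℝ) (hJ : IsCoupling R J) (T ε : ℝ) (hT : 0 ≤ T) :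
    ExpDecay R J T ε ↔
      ∃ r : ℕ, (4 * R * (4 * r + 3 * R + 1) : ℝ) * mag R J T ε r < 1 := by
  constructor
  · exact fwd R J T ε
  · rintro ⟨r, hr⟩
    by_contra hne
    exact absurd ((pf_all R).2.1 J hJ T ε hT hne r) (not_le.mpr hr)

end Pool.Agent.Results.MP_057a7e_pr.FiniteVolumeCriterion
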