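import Pool.Agent.H98.RFT.Inv

/-!
# All finite range couplings, every temperature: if `m` does not decay exponentially then
`L m(L)` tends to infinity
-/

set_option autoImplicit false

open Pool.Agent.H98.RFC Filter

namespace Pool.Agent.Results.MP_057a7e_pr.NoInverseLinearDecayT

/-- **Without exponential decay `L m(L)` tends to infinity.** -/
theorem result (R : ℕ) (J : Site → ℝ) (hJ : IsCoupling R J) (T ε : ℝ) (hT : 0 ≤ T) (hε : 0 < ε)
    (h : ¬ ExpDecay R J T ε) :
    Tendsto (fun L : ℕ => (L : ℝ) * mag R J T ε L) atTop atTop :=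
  Pool.Agent.H98.RFT.g_INVA R J hJ T ε hT hε h

end Pool.Agent.Results.MP_057a7e_pr.NoInverseLinearDecayT
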