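import Pool.Agent.H98.RFC.Final

/-!
# The set of couplings, temperatures and disorder strengths with exponential decay is open

Couplings of range at most `R`, temperatures `T ≥ 0`, disorder strengths `ε > 0`; the constants
are uniform in a neighbourhood.
-/

set_option autoImplicit false

open Pool.Agent.H98.RFC

namespace Pool.Agent.Results.MP_057a7e_pr.OpenSetOfCouplings

/-- **Exponential decay is an open condition.** -/
theorem result (R : ℕ) (J₀ : Site → ℝ) (hJ₀ : IsCoupling R J₀) (T₀ ε₀ : ℝ) (hT₀ : 0 ≤ T₀)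
    (hε₀ : 0 < ε₀) (h : ExpDecay R J₀ T₀ ε₀) :
    ∃ δ > 0, ∃ C > 0, ∃ c > 0, ∀ (J : Site → ℝ), IsCoupling R J → ∀ (T ε : ℝ), 0 ≤ T →
      (∀ z, |J z - J₀ z| < δ) → |T - T₀| < δ → |ε - ε₀| < δ →
      ∀ L : ℕ, 1 ≤ L → mag R J T ε L ≤ C * Real.exp (-(c * L)) :=
  (pf_all R).2.2 J₀ hJ₀ T₀ ε₀ hT₀ hε₀ h

end Pool.Agent.Results.MP_057a7e_pr.OpenSetOfCouplings
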