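import Pool.Agent.H98.RFT.Planar

/-!
# Exponential decay for planar couplings at every temperature, and for all finite range couplings
close to them

Planar: the bonds of `J₀` are among `0, ±a, ±b, ±(a+b)` for a basis `a, b` of `ℤ²` (a square or
triangular lattice with arbitrary, possibly different, strengths in the three directions).
-/

set_option autoImplicit false

open Pool.Agent.H98.RFC

namespace Pool.Agent.Results.MP_057a7e_pr.PlanarAllTemperatures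

/-- `J` vanishes outside `0, ±a, ±b, ±(a+b)` for some basis `a, b` of `ℤ²`. -/
def Planar (J : Site → ℝ) : Prop :=
  ∃ a b : Site, (a.1 * b.2 - a.2 * b.1 = 1 ∨ a.1 * b.2 - a.2 * b.1 = -1) ∧
    ∀ z, J z ≠ 0 → z = 0 ∨ z = a ∨ z = -a ∨ z = b ∨ z = -b ∨ z = a + b ∨ z = -(a + b)

/-- **Planar couplings decay exponentially at every temperature, uniformly in a neighbourhood.** -/
theorem result (R : ℕ) (J₀ : Site → ℝ) (hJ₀ : IsCoupling R J₀) (hP : Planar J₀) (T₀ ε₀ : ℝ)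
    (hT₀ : 0 ≤ T₀) (hε₀ : 0 < ε₀) :
    ∃ δ > 0, ∃ C > 0, ∃ c > 0, ∀ (J : Site → ℝ), IsCoupling R J → ∀ (T ε : ℝ), 0 ≤ T →
      (∀ z, |J z - J₀ z| < δ) → |T - T₀| < δ → |ε - ε₀| < δ →
      ∀ L : ℕ, 1 ≤ L → mag R J T ε L ≤ C * Real.exp (-(c * L)) :=
  (pf_all R).2.2 J₀ hJ₀ T₀ ε₀ hT₀ hε₀
    (Pool.Agent.H98.RFT.g_PLA R J₀ hJ₀ hP T₀ ε₀ hT₀ hε₀)

end Pool.Agent.Results.MP_057a7e_pr.PlanarAllTemperatures
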